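import Pool.Agent.H32.RK.TargetsA
import Pool.Agent.H32.RK.TargetsB

/-!
# The row BDS: the vectors which are orthogonal to a small vector supported on three coordinates
are rare
-/

set_option autoImplicit false

open Finset NumberField Pool.Agent.H32.RQ Pool.Agent.H32.RK

namespace Pool.Agent.H16.RK

section

variable {K : Type} [Field K] [NumberField K]

theorem fin_uk (K : Type) [Field K] [NumberField K] (X : ℝ) :
    {a : 𝓞 K | ∀ w : InfinitePlace K, w (a : K) ≤ X}.Finite := by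
  have h1 := NumberField.Embeddings.finite_of_norm_le K ℂ X
  refine Set.Finite.subset (h1.preimage (f := fun a : 𝓞 K => (a : K)) ?_) ?_
  · intro a _ b _ h
    exact RingOfIntegers.ext h
  · intro a ha
    refine ⟨RingOfIntegers.isIntegral_coe a, fun φ => ?_⟩
    exact ha (InfinitePlace.mk φ)

/-- the integers of size at most `X` -/
noncomputable def uk (K : Type) [Field K] [NumberField K] (X : ℝ) : Finset (𝓞 K) :=
  (fin_uk K X).toFinset

theorem mem_uk {X : ℝ} {a : 𝓞 K} : a ∈ uk K X ↔ ∀ w : InfinitePlace K, w (a : K) ≤ X := by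
  unfold uk
  rw [Set.Finite.mem_toFinset]
  rfl

theorem mem_vk {s : ℕ} {X : ℝ} {x : Fin s → 𝓞 K} : x ∈ vk K s X ↔ Bd X x := by
  unfold vk
  rw [Set.Finite.mem_toFinset]
  rfl

theorem card_uk (K : Type) [Field K] [NumberField K] (hUPP : T_UPP K) :
    ∃ C : ℝ, 1 ≤ C ∧ ∀ X : ℝ, 1 ≤ X → ((uk K X).card : ℝ) ≤ C * X ^ dg K := by
  obtain ⟨C, hC, h⟩ := hUPP
  refine ⟨C * 2 ^ dg K, ?_, fun X hX => ?_⟩
  · have : (1 : ℝ) ≤ 2 ^ dg K := one_le_pow₀ (by norm_num)
    nlinarith
  · have h1 := h (uk K X) (2 * X) (by linarith) (by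
      intro a ha b hb w
      have h2 := mem_uk.1 ha w
      have h3 := mem_uk.1 hb w
      have h4 : w ((a : K) - b) ≤ w (a : K) + w (b : K) := by
        have h5 := w.1.add_le (a : K) (-(b : K))
        rw [AbsoluteValue.map_neg, ← sub_eq_add_neg] at h5
        exact h5
      linarith)
    rw [mul_pow] at h1
    linarith

open Classical in
theorem card_hyp {s : ℕ} (B : ℝ) (l : Fin s → 𝓞 K) (k : Fin s) (hk : l k ≠ 0) :
    ((vk K s B).filter fun x : Fin s → 𝓞 K => ∑ i, l i * x i = 0).card ≤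
      (uk K B).card ^ (s - 1) := by
  have h1 : (Fintype.piFinset fun _ : {j : Fin s // j ≠ k} => uk K B).card =
      (uk K B).card ^ (s - 1) := by
    rw [Fintype.card_piFinset, Finset.prod_const, Finset.card_univ,
      Fintype.card_subtype_compl]
    simp
  rw [← h1]
  refine Finset.card_le_card_of_injOn
    (fun (x : Fin s → 𝓞 K) (j : {j : Fin s // j ≠ k}) => x j.1) ?_ ?_
  · intro x hx
    rw [Finset.mem_coe, Finset.mem_filter, mem_vk] at hx
    simp only [Finset.mem_coe, Fintype.mem_piFinset]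
    exact fun j => mem_uk.2 (hx.1 j.1)
  · intro x hx y hy hxy
    rw [Finset.mem_coe, Finset.mem_filter] at hx hy
    have hne : ∀ j, j ≠ k → x j = y j := fun j hj => congrFun hxy ⟨j, hj⟩
    have h2 : l k * x k = l k * y k := by
      have e1 := Finset.add_sum_erase Finset.univ (fun i => l i * x i) (Finset.mem_univ k)
      have e2 := Finset.add_sum_erase Finset.univ (fun i => l i * y i) (Finset.mem_univ k)
      have e3 : ∑ i ∈ Finset.univ.erase k, l i * x i = ∑ i ∈ Finset.univ.erase k, l i * y i :=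
        Finset.sum_congr rfl fun i hi => by rw [hne i (Finset.ne_of_mem_erase hi)]
      rw [hx.2] at e1
      rw [hy.2, ← e3] at e2
      exact add_right_cancel (e1.trans e2.symm)
    funext j
    by_cases hj : j = k
    · rw [hj]
      exact mul_left_cancel₀ hk h2
    · exact hne j hj

/-- the vector with the values `a` at the coordinates `t` -/
noncomputable def phv {s : ℕ} (p : (Fin 3 → Fin s) × (Fin 3 → 𝓞 K)) (j : Fin s) : 𝓞 K :=
  if j = p.1 0 then p.2 0 else if j = p.1 1 then p.2 1 else if j = p.1 2 then p.2 2 else 0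

omit [NumberField K] in
theorem phv_eq {s : ℕ} (t : Fin 3 → Fin s) (l : Fin s → 𝓞 K)
    (h : ∀ i, (∀ a, t a ≠ i) → l i = 0) : phv (t, fun a => l (t a)) = l := by
  funext j
  unfold phv
  simp only
  by_cases h1 : j = t 0
  · rw [if_pos h1, h1]
  · rw [if_neg h1]
    by_cases h2 : j = t 1
    · rw [if_pos h2, h2]
    · rw [if_neg h2]
      by_cases h3 : j = t 2
      · rw [if_pos h3, h3]
      · rw [if_neg h3]
        refine (h j fun a => ?_).symm
        fin_cases a
        · exact fun e => h1 e.symm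
        · exact fun e => h2 e.symm
        · exact fun e => h3 e.symm

open Classical in
theorem card_bd (s : ℕ) (B R : ℝ) :
    ((vk K s B).filter fun x => ¬ Sup R x).card ≤
      s ^ 3 * (uk K R).card ^ 3 * (uk K B).card ^ (s - 1) := by
  obtain ⟨P, hP⟩ : ∃ P : Finset ((Fin 3 → Fin s) × (Fin 3 → 𝓞 K)),
    P = Finset.univ ×ˢ Fintype.piFinset fun _ => uk K R := ⟨_, rfl⟩
  have hPc : P.card = s ^ 3 * (uk K R).card ^ 3 := by
    rw [hP]
    simp [Finset.card_product, Fintype.card_piFinset]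
  have hsub : ((vk K s B).filter fun x => ¬ Sup R x) ⊆
      P.biUnion fun t => if phv t = 0 then ∅ else
        (vk K s B).filter fun x => ∑ i, phv t i * x i = 0 := by
    intro x hx
    rw [Finset.mem_filter] at hx
    obtain ⟨hxv, hx2⟩ := hx
    unfold Pool.Agent.H32.RK.Sup at hx2
    push Not at hx2
    obtain ⟨l, ⟨t, ht⟩, hlR, hl0, hlne⟩ := hx2
    have hph := phv_eq t l ht
    rw [Finset.mem_biUnion]
    refine ⟨(t, fun a => l (t a)), ?_, ?_⟩
    · rw [hP]
      simp only [Finset.mem_product, Finset.mem_univ, true_and, Fintype.mem_piFinset]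
      exact fun a => mem_uk.2 (hlR (t a))
    · rw [hph, if_neg hlne, Finset.mem_filter]
      exact ⟨hxv, hl0⟩
  refine (Finset.card_le_card hsub).trans ?_
  rw [← hPc]
  refine Finset.card_biUnion_le_card_mul _ _ _ fun t _ => ?_
  split_ifs with h
  · simp
  · obtain ⟨k, hk⟩ : ∃ k, phv t k ≠ 0 := by
      by_contra hcon
      push Not at hcon
      exact h (funext hcon)
    exact card_hyp B (phv t) k hk

end

open Classical in
theorem pf_BDS (K : Type) [Field K] [NumberField K] (hUPP : T_UPP K) : T_BDS K := by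
  intro s
  obtain ⟨C, hC, h⟩ := card_uk K hUPP
  refine ⟨((s : ℝ) ^ 3 + 1) * (C ^ 3 * C ^ (s - 1)), ?_, fun B R hB hR => ?_⟩
  · have h1 : (1 : ℝ) ≤ C ^ 3 := one_le_pow₀ hC
    have h2 : (1 : ℝ) ≤ C ^ (s - 1) := one_le_pow₀ hC
    have h3 : (0 : ℝ) ≤ (s : ℝ) ^ 3 := by positivity
    have h4 : (1 : ℝ) ≤ C ^ 3 * C ^ (s - 1) := by nlinarith
    nlinarith
  · have h1 := card_bd (K := K) s B R
    have h2 : ((((vk K s B).filter fun x => ¬ Sup R x).card : ℕ) : ℝ) ≤
        (s : ℝ) ^ 3 * ((uk K R).card : ℝ) ^ 3 * ((uk K B).card : ℝ) ^ (s - 1) := by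
      exact_mod_cast h1
    have h3 : ((uk K R).card : ℝ) ^ 3 ≤ (C * R ^ dg K) ^ 3 :=
      pow_le_pow_left₀ (Nat.cast_nonneg _) (h R hR) 3
    have h4 : ((uk K B).card : ℝ) ^ (s - 1) ≤ (C * B ^ dg K) ^ (s - 1) :=
      pow_le_pow_left₀ (Nat.cast_nonneg _) (h B hB) _
    have h5 : (s : ℝ) ^ 3 * ((uk K R).card : ℝ) ^ 3 * ((uk K B).card : ℝ) ^ (s - 1) ≤
        ((s : ℝ) ^ 3 + 1) * (C * R ^ dg K) ^ 3 * (C * B ^ dg K) ^ (s - 1) := by
      gcongr
      linarith
    refine (h2.trans h5).trans (le_of_eq ?_)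
    rw [mul_pow, mul_pow, ← pow_mul, ← pow_mul, mul_comm (dg K) 3]
    ring

end Pool.Agent.H16.RK
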