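import Pool.Agent.H92.RK.Targets

/-!
# The invariant component (MP_8f7db2_an, module CLB)
-/

set_option autoImplicit false

open MeasureTheory Set
open scoped ENNReal

namespace Pool.Agent.H16.RK

open Pool.Agent.H92.RK

theorem ioi_split (g : ℝ → ℝ≥0∞) :
    ∫⁻ r in Ioi (0 : ℝ), g r = (∫⁻ r in Ioc (0 : ℝ) r₂, g r) + ∫⁻ r in Ioi r₂, g r := by
  have h0 : (0 : ℝ) ≤ r₂ := Real.sqrt_nonneg _
  rw [← Ioc_union_Ioi_eq_Ioi h0]
  refine lintegral_union measurableSet_Ioi ?_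
  rw [Set.disjoint_left]
  intro x hx hx'
  exact absurd hx.2 (not_le.2 hx')

/-- CLB: the invariant component -/
theorem pf_CLB (hCB1 : T_CB1) (hCB2 : T_CB2) : T_CLB := by
  intro k Ω W Wr Wt hk hΩ hvol hPF hQP h1 h2
  have A := hCB1 k Ω W Wr Wt hk hPF hQP h1 h2
  have B := hCB2 k Ω W Wr Wt hk hΩ hvol hPF hQP
  unfold NN EN
  rw [ioi_split, ioi_split, mul_add]
  exact add_le_add A B

end Pool.Agent.H16.RK
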